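import Pool.Agent.W_89ccdb_h29.Pair

/-!
# Two half twists in the diagram modules: commuting images or free powers

`T = g σ_i g⁻¹` and `T' = h σ_j h⁻¹` are any two conjugates of generators of the braid group `B_n`
(half twists along any two arcs), `A` is transcendental, `1 ≤ k`, `2 k ≤ n`, `3 ≤ n`.

* The images of `T` and `T'` in the group of `V^n_{n-2k}` commute, or the powers `T ^ a` and
  `T' ^ b`, `|a|, |b| ≥ 2`, act as free generators of a free group of rank two.
* The images do not commute if the commutator `T T' T⁻¹ T'⁻¹` is not a pure braid, or if `2 k < n`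
  and some two strands of it have a nonzero crossing number.

Definitions:

* `Braid n` : the braid group on `n` strands, given by generators and relations.
* `perm n` : the homomorphism of `Braid n` to the permutations of `ℕ`, the generator `i` goes to
  the transposition of `i` and `i + 1`.
* `crossings n b p q` : the number of crossings, counted with sign, between the strands of `b` with
  end points `p` and `q`; it is the coefficient at the pair `{p, q}` of `cross n b`, where `cross n`
  is the homomorphism of `Braid n` to the semidirect product of the functions of pairs with the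
  permutations, which sends the generator `i` to one crossing at the pair `{i, i + 1}` and the
  transposition of `i` and `i + 1`.
* `Diagram n k` : crossingless diagrams with `n` top endpoints, `k` cups and `n - 2k` through lines.
* `V ℂ n k` : the vector space with basis `Diagram n k`.
* `e A i` : the action of the Temperley-Lieb generator by stacking.
* `rho A n k` : the action of `Braid n`; the generator `i` acts as `A + A⁻¹ e_i`.
-/

namespace Pool.Agent.Results.MP_89ccdb_gt.CommuteOrFree

open Pool.Agent.W_89ccdb_h28 Pool.Agent.W_89ccdb_h29

theorem result (n k : ℕ) (hn : 3 ≤ n) (hk : 1 ≤ k) (hkn : 2 * k ≤ n) (A : ℂˣ)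
    (hA : Transcendental ℚ (A : ℂ)) (g h : Braid n) (i j : Fin (n - 1)) (T T' : Braid n)
    (hT : T = g * PresentedGroup.of i * g⁻¹) (hT' : T' = h * PresentedGroup.of j * h⁻¹) :
    (Commute (rho A n k T) (rho A n k T') ∨ ∀ a b : ℤ, 2 ≤ |a| → 2 ≤ |b| →
      Function.Injective ((rho A n k).comp (FreeGroup.lift ![T ^ a, T' ^ b]))) ∧
    (perm n (T * T' * T⁻¹ * T'⁻¹) ≠ 1 ∨ (2 * k < n ∧ ∃ p q : Fin n, p ≠ q ∧
        crossings n (T * T' * T⁻¹ * T'⁻¹) p q ≠ 0) →
      ¬ Commute (rho A n k T) (rho A n k T')) := by
  constructor
  · have h1 := dichotomy (k := k) g h i j hn hk hkn hA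
    rw [← hT, ← hT'] at h1
    rcases h1 with h1 | h1
    · exact Or.inl h1
    · right
      intro a b ha hb
      have h4 : (rho A n k).comp (FreeGroup.lift ![T ^ a, T' ^ b]) =
          FreeGroup.lift ![rho A n k T ^ a, rho A n k T' ^ b] := by
        apply FreeGroup.ext_hom
        intro x
        rw [MonoidHom.comp_apply, FreeGroup.lift_apply_of, FreeGroup.lift_apply_of]
        fin_cases x
        · exact map_zpow _ _ _
        · exact map_zpow _ _ _
      rw [h4]
      exact h1 a b ha hb
  · intro h1
    by_cases hc : perm n T * perm n T' = perm n T' * perm n T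
    · have h2 : perm n (T * T' * T⁻¹ * T'⁻¹) = 1 := by
        rw [map_mul, map_mul, map_mul, map_inv, map_inv, hc, mul_inv_cancel_right, mul_inv_cancel]
      rcases h1 with h1 | ⟨h1, p, q, hpq, h0⟩
      · exact absurd h2 h1
      · exact noncomm_of_cross g i hk h1 hA hT hc p.2 q.2 (fun h' => hpq (Fin.ext h')) h0
    · subst hT
      subst hT'
      exact noncomm_of_perm g h i j hn hk hkn hA hc

end Pool.Agent.Results.MP_89ccdb_gt.CommuteOrFree
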