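import Pool.Agent.W_89ccdb_h28.Exist

/-!
# `V^n_{n-2k}` is not a faithful module of the braid group `B_n` for `n ≥ 4k + 1`

For all `k ≥ 1` and `n ≥ 4 k + 1` there is one nontrivial braid on `n` strands which, for every
nonzero complex number `A`, acts trivially on all the diagram modules `V^n_{n-2j}` with `j ≤ k`.
For `k = 1` this is the theorem of Bigelow on the Burau representation.

* `Braid n` : the braid group on `n` strands, given by generators and relations.
* `Diagram n j` : crossingless diagrams with `n` top endpoints, `j` cups and `n - 2j` through lines.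
* `V ℂ n j` : the vector space with basis `Diagram n j`.
* `e A i` : the action of the Temperley-Lieb generator by stacking.
* `rho A n j` : the action of `Braid n`; the generator `i` acts as `A + A⁻¹ e_i`.
-/

namespace Pool.Agent.Results.MP_89ccdb_gt.LinearRange

open Pool.Agent.W_89ccdb_h28

theorem result (n k : ℕ) (hk : 1 ≤ k) (hn : 4 * k + 1 ≤ n) :
    ∃ β : Braid n, β ≠ 1 ∧ ∀ (A : ℂˣ) (j : ℕ), j ≤ k → rho A n j β = 1 := by
  obtain ⟨β, h1, h2⟩ := exists_braid n k hk hn
  exact ⟨β, h1, fun A j hj => h2 ℂ A j hj⟩

end Pool.Agent.Results.MP_89ccdb_gt.LinearRange
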